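import Mathlib
import Pool.Agent.H523R3.TransMain

set_option autoImplicit false

/-!
# MP_ff81d5_co: the transversal ratios of polytopes and spheres tend to one, and are monotone

The definitions of `tauP`, `tauS` and of all notions they use are in `Pool.Agent.H523R3.TransDefs`.
-/

namespace Pool.Agent.Results.MP_ff81d5_co.Limit

open Pool.Agent.H523R3.Trans Filter Topology

/-- limit superior of suprema of sets of ratios in `[0,1]` is at most one -/
lemma limsup_le_one (A : ℕ → Set ℝ) (h0 : ∀ n, ∀ t ∈ A n, 0 ≤ t) (hle : ∀ n, ∀ t ∈ A n, t ≤ 1) :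
    limsup (fun n => sSup (A n)) atTop ≤ 1 := by
  have hcob : IsCoboundedUnder (· ≤ ·) atTop (fun n => sSup (A n)) :=
    IsCoboundedUnder.of_frequently_ge (a := 0)
      (Eventually.frequently (Eventually.of_forall fun n => Real.sSup_nonneg (h0 n)))
  exact limsup_le_of_le hcob (Eventually.of_forall fun n => Real.sSup_le (hle n) zero_le_one)

lemma tauP_le_one {d : ℕ} (hd : 0 < d) : tauP d ≤ 1 := by
  apply limsup_le_one
  · rintro n t ⟨p, hp, rfl⟩
    exact transversalRatio_nonneg _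
  · rintro n t ⟨p, hp, rfl⟩
    exact transversalRatio_le_one (isComplex_boundary hd hp)

lemma tauS_le_one (d : ℕ) : tauS d ≤ 1 := by
  apply limsup_le_one
  · rintro n t ⟨Δ, hΔ, rfl⟩
    exact transversalRatio_nonneg _
  · rintro n t ⟨Δ, hΔ, rfl⟩
    exact transversalRatio_le_one hΔ.1

/-- `τ^P_d → 1` and `τ^S_d → 1`; both sequences are weakly increasing from `d = 3` on, and both
satisfy `τ_d ≤ τ_{d+2}` for all `d ≥ 2`. -/
theorem result :
    (Tendsto tauP atTop (𝓝 1) ∧ Tendsto tauS atTop (𝓝 1)) ∧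
    (∀ d d' : ℕ, 3 ≤ d → d ≤ d' → tauP d ≤ tauP d' ∧ tauS d ≤ tauS d') ∧
    (∀ d : ℕ, 2 ≤ d → tauP d ≤ tauP (d + 2) ∧ tauS d ≤ tauS (d + 2)) := by
  refine ⟨⟨?_, ?_⟩, ?_, ?_⟩
  · apply tendsto_const_nhds.congr'
    filter_upwards [eventually_ge_atTop 4] with d hd
    exact (tauP_eq_one hd).symm
  · apply tendsto_const_nhds.congr'
    filter_upwards [eventually_ge_atTop 4] with d hd
    exact (tauS_eq_one hd).symm
  · intro d d' hd hdd
    rcases Nat.eq_or_lt_of_le hdd with h | h
    · subst h; exact ⟨le_rfl, le_rfl⟩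
    · rw [tauP_eq_one (show 4 ≤ d' by omega), tauS_eq_one (show 4 ≤ d' by omega)]
      exact ⟨tauP_le_one (by omega), tauS_le_one d⟩
  · intro d hd
    rw [tauP_eq_one (show 4 ≤ d + 2 by omega), tauS_eq_one (show 4 ≤ d + 2 by omega)]
    exact ⟨tauP_le_one (by omega), tauS_le_one d⟩

end Pool.Agent.Results.MP_ff81d5_co.Limit
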